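import Mathlib

set_option autoImplicit false

namespace Pool.Agent.Helper67.SG

/-- the pair killed at level `n`; every nonzero pair occurs infinitely often -/
def pq (n : ℕ) : ℕ × ℕ :=
  if Nat.unpair (Nat.unpair n).1 = (0, 0) then (1, 0) else Nat.unpair (Nat.unpair n).1

theorem pq_pos (n : ℕ) : 1 ≤ (pq n).1 + (pq n).2 := by
  unfold pq
  split_ifs with h
  · simp
  · rcases h2 : Nat.unpair (Nat.unpair n).1 with ⟨p, q⟩
    rw [h2] at h
    simp only [Prod.mk.injEq, not_and] at h
    show 1 ≤ p + q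
    by_contra h3
    have hp : p = 0 := by omega
    have hq : q = 0 := by omega
    exact h hp hq

theorem exists_pq (p q N : ℕ) (h : ¬ (p = 0 ∧ q = 0)) : ∃ n, N ≤ n ∧ pq n = (p, q) := by
  refine ⟨Nat.pair (Nat.pair p q) N, Nat.right_le_pair _ _, ?_⟩
  unfold pq
  rw [Nat.unpair_pair]
  simp only [Nat.unpair_pair]
  rw [if_neg]
  intro h2
  simp only [Prod.mk.injEq] at h2
  exact h h2

/-- degrees of the tree -/
def m : ℕ → ℕ
  | 0 => 2
  | n + 1 => (pq n).1 + (pq n).2 + 1

theorem two_le_m (n : ℕ) : 2 ≤ m n := by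
  cases n with
  | zero => exact le_rfl
  | succ n => show 2 ≤ (pq n).1 + (pq n).2 + 1; have := pq_pos n; omega

instance (n : ℕ) : NeZero (m n) := ⟨by have := two_le_m n; omega⟩

instance (n : ℕ) : Fact (1 < m n) := ⟨two_le_m n⟩

abbrev X : Type := ∀ n : ℕ, ZMod (m n)

abbrev Y : Type := X × ZMod 2

abbrev B : Type := ℤ × ℤ × ℤ

def rho (n : ℕ) (b : B) : ZMod (m (n + 1)) :=
  (((pq n).2 * b.1 - (pq n).1 * b.2.1 : ℤ) : ZMod (m (n + 1)))

theorem rho_add (n : ℕ) (b b' : B) : rho n (b + b') = rho n b + rho n b' := by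
  unfold rho
  rw [← Int.cast_add]
  congr 1
  simp only [Prod.fst_add, Prod.snd_add]
  ring

theorem rho_zero (n : ℕ) : rho n 0 = 0 := by
  unfold rho; simp

def rot (n : ℕ) (t : ZMod (m n)) (y : Y) : Y := (Function.update y.1 n (y.1 n + t), y.2)

theorem rot_apply_self (n : ℕ) (t : ZMod (m n)) (y : Y) : (rot n t y).1 n = y.1 n + t := by
  simp [rot]

theorem rot_apply_ne {n k : ℕ} (h : k ≠ n) (t : ZMod (m n)) (y : Y) :
    (rot n t y).1 k = y.1 k := by
  simp [rot, Function.update_of_ne h]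

theorem rot_snd (n : ℕ) (t : ZMod (m n)) (y : Y) : (rot n t y).2 = y.2 := rfl

theorem rot_rot (n : ℕ) (s t : ZMod (m n)) (y : Y) : rot n s (rot n t y) = rot n (t + s) y := by
  unfold rot
  ext k
  · by_cases h : k = n
    · subst h; simp [add_assoc]
    · simp [Function.update_of_ne h]
  · rfl

theorem rot_zero (n : ℕ) (y : Y) : rot n 0 y = y := by
  unfold rot
  ext k
  · by_cases h : k = n
    · subst h; simp
    · simp [Function.update_of_ne h]
  · rfl

theorem rot_comm {n k : ℕ} (h : n ≠ k) (s : ZMod (m n)) (t : ZMod (m k)) (y : Y) :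
    rot n s (rot k t y) = rot k t (rot n s y) := by
  unfold rot
  ext j
  · by_cases hj : j = n
    · subst hj
      simp [Function.update_of_ne h]
    · by_cases hk : j = k
      · subst hk
        simp [Function.update_of_ne hj]
      · simp [Function.update_of_ne hj, Function.update_of_ne hk]
  · rfl

open Classical in
/-- action of `B` at level `n` -/
noncomputable def bact (n : ℕ) (b : B) (y : Y) : Y :=
  if h : ∃ k, n ≤ k ∧ y.1 k ≠ 0 then
    if y.1 (Nat.find h) = 1 then rot (Nat.find h + 1) (rho (Nat.find h) b) y else y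
  else (y.1, y.2 + (b.2.2 : ZMod 2))

theorem bact_of_first {n k : ℕ} {y : Y} (b : B) (hk : n ≤ k)
    (h0 : ∀ j, n ≤ j → j < k → y.1 j = 0) (h1 : y.1 k ≠ 0) :
    bact n b y = if y.1 k = 1 then rot (k + 1) (rho k b) y else y := by
  classical
  have h : ∃ k, n ≤ k ∧ y.1 k ≠ 0 := ⟨k, hk, h1⟩
  have hf : Nat.find h = k := by
    rw [Nat.find_eq_iff]
    refine ⟨⟨hk, h1⟩, ?_⟩
    rintro j hj ⟨hj1, hj2⟩
    exact hj2 (h0 j hj1 hj)
  unfold bact
  rw [dif_pos h]
  rw [hf]

theorem bact_of_zero {n : ℕ} {y : Y} (b : B) (h : ∀ k, n ≤ k → y.1 k = 0) :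
    bact n b y = (y.1, y.2 + (b.2.2 : ZMod 2)) := by
  classical
  unfold bact
  rw [dif_neg]
  rintro ⟨k, hk, hk2⟩
  exact hk2 (h k hk)

/-- first nonzero coordinate or all zero -/
theorem first_or_zero (n : ℕ) (y : Y) :
    (∀ k, n ≤ k → y.1 k = 0) ∨
      ∃ k, n ≤ k ∧ (∀ j, n ≤ j → j < k → y.1 j = 0) ∧ y.1 k ≠ 0 := by
  classical
  by_cases h : ∃ k, n ≤ k ∧ y.1 k ≠ 0
  · right
    refine ⟨Nat.find h, (Nat.find_spec h).1, ?_, (Nat.find_spec h).2⟩
    intro j hj hj2
    by_contra h3
    exact Nat.find_min h hj2 ⟨hj, h3⟩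
  · left
    push Not at h
    exact h

theorem bact_rec (n : ℕ) (b : B) (y : Y) :
    bact n b y = if y.1 n = 0 then bact (n + 1) b y else
      if y.1 n = 1 then rot (n + 1) (rho n b) y else y := by
  by_cases h0 : y.1 n = 0
  · rw [if_pos h0]
    rcases first_or_zero n y with h | ⟨k, hk, hk0, hk1⟩
    · rw [bact_of_zero b h, bact_of_zero b (fun k hk => h k (by omega))]
    · have hkn : k ≠ n := by
        rintro rfl
        exact hk1 h0
      rw [bact_of_first b hk hk0 hk1,
        bact_of_first b (by omega : n + 1 ≤ k) (fun j hj hj2 => hk0 j (by omega) hj2) hk1]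
  · rw [if_neg h0, bact_of_first b le_rfl (fun j hj hj2 => by omega) h0]

theorem bact_add (n : ℕ) (b b' : B) (y : Y) : bact n b (bact n b' y) = bact n (b' + b) y := by
  rcases first_or_zero n y with h | ⟨k, hk, hk0, hk1⟩
  · rw [bact_of_zero b' h, bact_of_zero (b' + b) h, bact_of_zero b (by exact h)]
    simp [add_assoc]
  · rw [bact_of_first b' hk hk0 hk1, bact_of_first (b' + b) hk hk0 hk1]
    by_cases h1 : y.1 k = 1
    · rw [if_pos h1, if_pos h1]
      have e1 : (rot (k + 1) (rho k b') y).1 k = y.1 k := rot_apply_ne (by omega) _ _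
      rw [bact_of_first b hk (k := k), if_pos, rot_rot, rho_add]
      · rw [e1, h1]
      · intro j hj hj2
        rw [rot_apply_ne (by omega)]
        exact hk0 j hj hj2
      · rw [e1]
        exact hk1
    · rw [if_neg h1, if_neg h1, bact_of_first b hk hk0 hk1, if_neg h1]

theorem bact_zero (n : ℕ) (y : Y) : bact n 0 y = y := by
  rcases first_or_zero n y with h | ⟨k, hk, hk0, hk1⟩
  · rw [bact_of_zero 0 h]; simp
  · rw [bact_of_first 0 hk hk0 hk1, rho_zero, rot_zero]
    simp

/-- coordinates below or at level `n` are not changed by `bact n` -/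
theorem bact_apply_le {n j : ℕ} (hj : j ≤ n) (b : B) (y : Y) : (bact n b y).1 j = y.1 j := by
  rcases first_or_zero n y with h | ⟨k, hk, hk0, hk1⟩
  · rw [bact_of_zero b h]
  · rw [bact_of_first b hk hk0 hk1]
    split_ifs
    · exact rot_apply_ne (by omega) _ _
    · rfl

theorem bact_rot_comm {n k : ℕ} (h : k < n) (b : B) (t : ZMod (m k)) (y : Y) :
    bact n b (rot k t y) = rot k t (bact n b y) := by
  rcases first_or_zero n y with h | ⟨j, hj, hj0, hj1⟩
  · have h' : ∀ i, n ≤ i → (rot k t y).1 i = 0 := by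
      intro i hi
      rw [rot_apply_ne (by omega)]
      exact h i hi
    rw [bact_of_zero b h, bact_of_zero b h']
    rfl
  · have e1 : (rot k t y).1 j = y.1 j := rot_apply_ne (by omega) _ _
    have h0' : ∀ i, n ≤ i → i < j → (rot k t y).1 i = 0 := by
      intro i hi hi2
      rw [rot_apply_ne (by omega)]
      exact hj0 i hi hi2
    rw [bact_of_first b hj hj0 hj1, bact_of_first b hj h0' (by rw [e1]; exact hj1), e1]
    split_ifs
    · rw [rot_comm (by omega)]
    · rfl

/-- rotation as a permutation -/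
def rotP (n : ℕ) (t : ZMod (m n)) : Equiv.Perm Y where
  toFun := rot n t
  invFun := rot n (-t)
  left_inv y := by rw [rot_rot, add_neg_cancel, rot_zero]
  right_inv y := by rw [rot_rot, neg_add_cancel, rot_zero]

noncomputable def bP (n : ℕ) (b : B) : Equiv.Perm Y where
  toFun := bact n b
  invFun := bact n (-b)
  left_inv y := by rw [bact_add, add_neg_cancel, bact_zero]
  right_inv y := by rw [bact_add, neg_add_cancel, bact_zero]

end Pool.Agent.Helper67.SG
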