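import Mathlib
import Pool.Agent.Helper67.SemiGrowth.Act

set_option autoImplicit false

namespace Pool.Agent.Helper67.SG

/-- positive syllables -/
abbrev T : Type := ℕ × ℕ × ℕ

def cz (b : T) : B := ((b.1 : ℤ), (b.2.1 : ℤ), (b.2.2 : ℤ))

theorem cz_add (a b : T) : cz (a + b) = cz a + cz b := by
  simp [cz]

def cst (b : T) : ℕ := b.1 + b.2.1 + b.2.2

theorem cst_add (a b : T) : cst (a + b) = cst a + cst b := by
  simp only [cst, Prod.fst_add, Prod.snd_add]; ring

/-- the tail of a word: syllables each followed by a rotation -/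
abbrev L (n : ℕ) : Type := List (T × ZMod (m n))

/-- a word: an initial rotation, then the tail -/
abbrev W (n : ℕ) : Type := ZMod (m n) × L n

/-- action of a tail -/
noncomputable def actL (n : ℕ) : L n → Y → Y
  | [], y => y
  | (β, t) :: l, y => actL n l (rot n t (bact n (cz β) y))

noncomputable def act (n : ℕ) (w : W n) (y : Y) : Y := actL n w.2 (rot n w.1 y)

def consR {n : ℕ} (t : ZMod (m n)) (w : W n) : W n := (t + w.1, w.2)

def consB {n : ℕ} (β : T) (w : W n) : W n :=
  match w.2 with
  | [] => (0, [(β, w.1)])
  | (β', t') :: l => if w.1 = 0 then (0, (β + β', t') :: l) else (0, (β, w.1) :: (β', t') :: l)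

theorem act_consR {n : ℕ} (t : ZMod (m n)) (w : W n) (y : Y) :
    act n (consR t w) y = act n w (rot n t y) := by
  unfold act consR
  simp only
  rw [rot_rot]

theorem act_consB {n : ℕ} (β : T) (w : W n) (y : Y) :
    act n (consB β w) y = act n w (bact n (cz β) y) := by
  obtain ⟨t, l⟩ := w
  cases l with
  | nil => simp only [consB, act, actL, rot_zero]
  | cons a l =>
    obtain ⟨β', t'⟩ := a
    simp only [consB]
    by_cases h : t = 0
    · rw [if_pos h]
      simp only [act, actL, rot_zero, cz_add, h, bact_add]
    · rw [if_neg h]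
      simp only [act, actL, rot_zero]

/-- section of a tail at coordinate value `c` -/
def sec (n : ℕ) : L n → ZMod (m n) → W (n + 1)
  | [], _ => (0, [])
  | (β, t) :: l, c =>
    if c = 0 then consB β (sec n l (c + t))
    else if c = 1 then consR (rho n (cz β)) (sec n l (c + t)) else sec n l (c + t)

/-- total rotation of a tail -/
def tot (n : ℕ) : L n → ZMod (m n)
  | [] => 0
  | (_, t) :: l => t + tot n l

theorem actL_rot_comm {n k : ℕ} (h : k < n) (l : L n) (t : ZMod (m k)) (y : Y) :
    actL n l (rot k t y) = rot k t (actL n l y) := by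
  induction l generalizing y with
  | nil => rfl
  | cons a l ih =>
    obtain ⟨β, s⟩ := a
    simp only [actL]
    rw [bact_rot_comm h, rot_comm (by omega), ih]

theorem act_rot_comm {n k : ℕ} (h : k < n) (w : W n) (t : ZMod (m k)) (y : Y) :
    act n w (rot k t y) = rot k t (act n w y) := by
  unfold act
  rw [rot_comm (by omega), actL_rot_comm h]

theorem act_nil (n : ℕ) (y : Y) : act n ((0, []) : W n) y = y := by
  simp only [act, actL, rot_zero]

theorem actL_eq (n : ℕ) (l : L n) (y : Y) :
    actL n l y = rot n (tot n l) (act (n + 1) (sec n l (y.1 n)) y) := by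
  induction l generalizing y with
  | nil => simp only [actL, tot, sec, act_nil, rot_zero]
  | cons a l ih =>
    obtain ⟨β, t⟩ := a
    have hy : (rot n t (bact n (cz β) y)).1 n = y.1 n + t := by
      rw [rot_apply_self, bact_apply_le le_rfl]
    simp only [actL, tot]
    rw [ih, hy, act_rot_comm (by omega), rot_rot]
    congr 1
    simp only [sec]
    rw [bact_rec]
    by_cases h0 : y.1 n = 0
    · rw [if_pos h0, if_pos h0, act_consB]
    · rw [if_neg h0, if_neg h0]
      by_cases h1 : y.1 n = 1
      · rw [if_pos h1, if_pos h1, act_consR]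
      · rw [if_neg h1, if_neg h1]

theorem act_eq (n : ℕ) (w : W n) (y : Y) :
    act n w y = rot n (tot n w.2) (act (n + 1) (sec n w.2 (y.1 n + w.1)) (rot n w.1 y)) := by
  unfold act
  rw [actL_eq, rot_apply_self]
  rfl

/-- costs -/
def costL {n : ℕ} (l : L n) : ℕ := (l.map fun a => cst a.1).sum

/-- number of syllables whose type satisfies a predicate -/
def cnt {n : ℕ} (A : T → Prop) [DecidablePred A] (l : L n) : ℕ := l.countP fun a => A a.1

theorem costL_cons {n : ℕ} (β : T) (t : ZMod (m n)) (l : L n) :
    costL ((β, t) :: l) = cst β + costL l := by simp [costL]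

theorem cnt_cons {n : ℕ} (A : T → Prop) [DecidablePred A] (β : T) (t : ZMod (m n)) (l : L n) :
    cnt A ((β, t) :: l) = cnt A l + if A β then 1 else 0 := by
  simp [cnt, List.countP_cons]

theorem cost_consB {n : ℕ} (β : T) (w : W n) :
    costL (consB β w).2 = cst β + costL w.2 := by
  obtain ⟨t, l⟩ := w
  cases l with
  | nil => simp [consB, costL]
  | cons a l =>
    obtain ⟨β', t'⟩ := a
    simp only [consB]
    split_ifs
    · simp only [costL_cons, cst_add]; ring
    · simp only [costL_cons]

theorem cost_consR {n : ℕ} (t : ZMod (m n)) (w : W n) :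
    costL (consR t w).2 = costL w.2 := rfl

theorem sum_shift {n : ℕ} (t : ZMod (m n)) (f : ZMod (m n) → ℕ) :
    ∑ c, f (c + t) = ∑ c, f c :=
  Fintype.sum_equiv (Equiv.addRight t) _ _ (fun _ => rfl)

theorem cost_sec (n : ℕ) (l : L n) : ∑ c, costL (sec n l c).2 = costL l := by
  induction l with
  | nil => simp [sec, costL]
  | cons a l ih =>
    obtain ⟨β, t⟩ := a
    have h1 : ∀ c, costL (sec n ((β, t) :: l) c).2 =
        costL (sec n l (c + t)).2 + if c = 0 then cst β else 0 := by
      intro c
      simp only [sec]
      split_ifs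
      · rw [cost_consB, add_comm]
      · rw [cost_consR, add_zero]
      · rw [add_zero]
    rw [Finset.sum_congr rfl (fun c _ => h1 c), Finset.sum_add_distrib,
      sum_shift t (fun c => costL (sec n l c).2), ih, Finset.sum_ite_eq' Finset.univ 0, if_pos (Finset.mem_univ _),
      costL_cons, add_comm]

/-- potential: number of syllables plus one if the word is open -/
def pot {n : ℕ} (w : W n) : ℕ := w.2.length + if (w.1 = 0 ∧ w.2 ≠ []) then 0 else 1

theorem pot_consB {n : ℕ} (β : T) (w : W n) : pot (consB β w) ≤ pot w := by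
  obtain ⟨t, l⟩ := w
  cases l with
  | nil => simp [consB, pot]
  | cons a l =>
    obtain ⟨β', t'⟩ := a
    simp only [consB]
    split_ifs with h
    · simp [pot, h]
    · simp [pot, h]

theorem pot_consR {n : ℕ} (t : ZMod (m n)) (w : W n) :
    pot (consR t w) ≤ pot w + if t = 0 then 0 else 1 := by
  obtain ⟨s, l⟩ := w
  by_cases h : t = 0
  · subst h
    simp [consR]
  · rw [if_neg h]
    simp only [pot, consR]
    have h1 : (if t + s = 0 ∧ l ≠ [] then 0 else 1) ≤ 1 := by split_ifs <;> simp
    exact (Nat.add_le_add_left h1 _).trans (Nat.add_le_add_right (Nat.le_add_right _ _) 1)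

/-- number of syllables not killed -/
def unk {n : ℕ} (l : L n) : ℕ := l.countP fun a => rho n (cz a.1) ≠ 0

theorem pot_sec (n : ℕ) (l : L n) : ∑ c, pot (sec n l c) ≤ m n + unk l := by
  induction l with
  | nil => simp [sec, pot, unk, ZMod.card]
  | cons a l ih =>
    obtain ⟨β, t⟩ := a
    have h1 : ∀ c, pot (sec n ((β, t) :: l) c) ≤
        pot (sec n l (c + t)) + if c = 1 then (if rho n (cz β) = 0 then 0 else 1) else 0 := by
      intro c
      simp only [sec]
      by_cases h0 : c = 0
      · rw [if_pos h0]
        exact (pot_consB _ _).trans (Nat.le_add_right _ _)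
      · rw [if_neg h0]
        by_cases h1 : c = 1
        · rw [if_pos h1, if_pos h1]
          exact pot_consR _ _
        · rw [if_neg h1, if_neg h1]
          exact Nat.le_add_right _ _
    refine (Finset.sum_le_sum (fun c _ => h1 c)).trans ?_
    rw [Finset.sum_add_distrib, sum_shift t (fun c => pot (sec n l c)),
      Finset.sum_ite_eq' Finset.univ 1, if_pos (Finset.mem_univ _)]
    have : unk ((β, t) :: l) = unk l + if rho n (cz β) = 0 then 0 else 1 := by
      simp only [unk, List.countP_cons]
      by_cases h : rho n (cz β) = 0 <;> simp [h]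
    rw [this]
    omega

theorem len_sec (n : ℕ) (l : L n) : ∑ c, (sec n l c).2.length ≤ m n + unk l := by
  refine le_trans (Finset.sum_le_sum fun c _ => ?_) (pot_sec n l)
  unfold pot
  exact Nat.le_add_right _ _

theorem cnt_consB_aux {n : ℕ} (A : T → Prop) [DecidablePred A] (β : T) (w : W n) :
    2 * (consB β w).2.length + cnt A w.2 + (if A β then 1 else 0) ≤
      cnt A (consB β w).2 + 2 * w.2.length + 2 := by
  obtain ⟨t, l⟩ := w
  cases l with
  | nil =>
    simp only [consB, cnt_cons, List.length_cons, List.length_nil]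
    simp only [cnt, List.countP_nil]
    omega
  | cons a l =>
    obtain ⟨β', t'⟩ := a
    simp only [consB]
    by_cases h : t = 0
    · rw [if_pos h]
      simp only [cnt_cons, List.length_cons]
      split_ifs <;> omega
    · rw [if_neg h]
      simp only [cnt_cons, List.length_cons]
      omega

theorem cnt_sec (n : ℕ) (A : T → Prop) [DecidablePred A] (l : L n) :
    cnt A l + 2 * ∑ c, (sec n l c).2.length ≤ ∑ c, cnt A (sec n l c).2 + 2 * l.length := by
  induction l with
  | nil => simp [sec, cnt]
  | cons a l ih =>
    obtain ⟨β, t⟩ := a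
    have h1 : ∀ c, 2 * (sec n ((β, t) :: l) c).2.length + cnt A (sec n l (c + t)).2 +
        (if c = 0 then (if A β then 1 else 0) else 0) ≤
        cnt A (sec n ((β, t) :: l) c).2 + 2 * (sec n l (c + t)).2.length +
          if c = 0 then 2 else 0 := by
      intro c
      simp only [sec]
      by_cases h0 : c = 0
      · rw [if_pos h0, if_pos h0, if_pos h0]
        exact cnt_consB_aux A β _
      · rw [if_neg h0, if_neg h0, if_neg h0]
        by_cases h1 : c = 1
        · rw [if_pos h1]
          simp only [consR]
          omega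
        · rw [if_neg h1]
          omega
    have h2 := Finset.sum_le_sum (s := Finset.univ) (fun c _ => h1 c)
    simp only [Finset.sum_add_distrib, ← Finset.mul_sum, Finset.sum_ite_eq', Finset.mem_univ,
      if_true] at h2
    rw [sum_shift t (fun c => cnt A (sec n l c).2),
      sum_shift t (fun c => (sec n l c).2.length)] at h2
    rw [cnt_cons, List.length_cons]
    omega

end Pool.Agent.Helper67.SG
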