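import Mathlib
import Pool.Agent.Helper67.SemiGrowth.Word

set_option autoImplicit false

namespace Pool.Agent.Helper67.SG

/-- vertices of level `n` -/
def I : ℕ → Type
  | 0 => Unit
  | n + 1 => I n × ZMod (m n)

noncomputable instance instFintypeI : ∀ n, Fintype (I n)
  | 0 => inferInstanceAs (Fintype Unit)
  | n + 1 => by
    haveI := instFintypeI n
    exact inferInstanceAs (Fintype (I n × ZMod (m n)))

theorem sum_I_zero (f : I 0 → ℕ) : ∑ i, f i = f () := by
  have h : (Finset.univ : Finset (I 0)) = {()} := rfl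
  rw [h]
  exact Finset.sum_singleton _ _

theorem sum_I_succ (n : ℕ) (f : I (n + 1) → ℕ) : ∑ i, f i = ∑ i : I n, ∑ c, f (i, c) := by
  show ∑ i : I n × ZMod (m n), f i = _
  exact Fintype.sum_prod_type f

theorem card_I_succ (n : ℕ) : Fintype.card (I (n + 1)) = Fintype.card (I n) * m n := by
  show Fintype.card (I n × ZMod (m n)) = _
  rw [Fintype.card_prod, ZMod.card]

/-- family of the level `n` section words of a word -/
def fam (w : W 0) : ∀ n, I n → W n
  | 0, _ => w
  | n + 1, (i, c) => sec n (fam w n i).2 c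

theorem fam_succ (w : W 0) (n : ℕ) (i : I n) (c : ZMod (m n)) :
    fam w (n + 1) (i, c) = sec n (fam w n i).2 c := rfl

noncomputable def fcost (w : W 0) (n : ℕ) : ℕ := ∑ i, costL (fam w n i).2

noncomputable def flen (w : W 0) (n : ℕ) : ℕ := ∑ i, (fam w n i).2.length

noncomputable def fcnt (A : T → Prop) [DecidablePred A] (w : W 0) (n : ℕ) : ℕ := ∑ i, cnt A (fam w n i).2

theorem fcost_eq (w : W 0) (n : ℕ) : fcost w n = costL w.2 := by
  induction n with
  | zero => exact sum_I_zero _
  | succ n ih =>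
    rw [← ih]
    unfold fcost
    rw [sum_I_succ]
    refine Finset.sum_congr rfl fun i _ => ?_
    simp only [fam_succ]
    exact cost_sec n _

theorem flen_zero (w : W 0) : flen w 0 = w.2.length := sum_I_zero _

/-- the predicate of being killed at level `n` -/
def kill (n : ℕ) (b : T) : Prop := rho n (cz b) = 0

instance (n : ℕ) : DecidablePred (kill n) := fun b => by unfold kill; infer_instance

theorem unk_cons {n : ℕ} (β : T) (t : ZMod (m n)) (l : L n) :
    unk ((β, t) :: l) = unk l + if kill n β then 0 else 1 := by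
  unfold unk kill
  rw [List.countP_cons]
  by_cases h : rho n (cz β) = 0
  · simp [h]
  · simp [h]

theorem unk_add_cnt (n : ℕ) (l : L n) : unk l + cnt (kill n) l = l.length := by
  induction l with
  | nil => rfl
  | cons a l ih =>
    obtain ⟨β, t⟩ := a
    rw [unk_cons, cnt_cons, List.length_cons]
    split_ifs <;> omega

theorem flen_kill (w : W 0) (n : ℕ) :
    flen w (n + 1) + fcnt (kill n) w n ≤ Fintype.card (I (n + 1)) + flen w n := by
  unfold flen fcnt
  rw [sum_I_succ, card_I_succ, ← Finset.sum_add_distrib]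
  have h1 : ∀ i : I n, ∑ c, (fam w (n + 1) (i, c)).2.length + cnt (kill n) (fam w n i).2 ≤
      m n + (fam w n i).2.length := by
    intro i
    have := len_sec n (fam w n i).2
    have h2 := unk_add_cnt n (fam w n i).2
    simp only [fam_succ]
    omega
  refine (Finset.sum_le_sum fun i _ => h1 i).trans ?_
  rw [Finset.sum_add_distrib]
  simp [Finset.card_univ]

theorem fcnt_le (A : T → Prop) [DecidablePred A] (w : W 0) (n : ℕ) :
    fcnt A w n + 2 * flen w (n + 1) ≤ fcnt A w (n + 1) + 2 * flen w n := by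
  unfold flen fcnt
  rw [sum_I_succ, sum_I_succ, Finset.mul_sum, Finset.mul_sum, ← Finset.sum_add_distrib,
    ← Finset.sum_add_distrib]
  refine Finset.sum_le_sum fun i _ => ?_
  simp only [fam_succ]
  exact cnt_sec n A _

theorem flen_succ_le (w : W 0) (n : ℕ) : flen w (n + 1) ≤ flen w n := by
  have h := fcnt_le (fun _ => False) w n
  have h1 : ∀ k, fcnt (fun _ => False) w k = 0 := by
    intro k
    unfold fcnt cnt
    simp
  rw [h1, h1] at h
  omega

theorem flen_mono (w : W 0) {n k : ℕ} (h : n ≤ k) : flen w k ≤ flen w n := by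
  induction k, h using Nat.le_induction with
  | base => exact le_rfl
  | succ k _ ih => exact (flen_succ_le w k).trans ih

/-- will be killed at a level in `[k, k + d)` -/
def willkill (k d : ℕ) (b : T) : Prop := ∃ j, j < d ∧ kill (k + j) b

instance (k d : ℕ) : DecidablePred (willkill k d) := fun b => by
  unfold willkill; infer_instance

theorem fcnt_mono {A A' : T → Prop} [DecidablePred A] [DecidablePred A'] (h : ∀ b, A b → A' b)
    (w : W 0) (n : ℕ) : fcnt A w n ≤ fcnt A' w n := by
  unfold fcnt cnt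
  refine Finset.sum_le_sum fun i _ => ?_
  refine List.countP_mono_left fun a _ ha => ?_
  simp only [decide_eq_true_eq] at ha ⊢
  exact h _ ha

theorem fcnt_or (A A' : T → Prop) [DecidablePred A] [DecidablePred A']
    [DecidablePred fun b => A b ∨ A' b] (w : W 0) (n : ℕ) :
    fcnt (fun b => A b ∨ A' b) w n ≤ fcnt A w n + fcnt A' w n := by
  unfold fcnt
  rw [← Finset.sum_add_distrib]
  refine Finset.sum_le_sum fun i _ => ?_
  induction (fam w n i).2 with
  | nil => simp [cnt]
  | cons a l ih =>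
    obtain ⟨β, t⟩ := a
    rw [cnt_cons, cnt_cons, cnt_cons]
    by_cases h1 : A β <;> by_cases h2 : A' β <;> simp only [h1, h2, or_true, true_or, or_false,
      if_true, if_false] <;> omega

theorem window (d : ℕ) : ∀ k : ℕ, ∃ K : ℕ, ∀ w : W 0,
    fcnt (willkill k d) w k + 3 * flen w (k + d) ≤ 3 * flen w k + K := by
  induction d with
  | zero =>
    intro k
    refine ⟨0, fun w => ?_⟩
    have : fcnt (willkill k 0) w k = 0 := by
      unfold fcnt cnt willkill
      simp
    rw [this]
    simp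
  | succ d ih =>
    intro k
    obtain ⟨K, hK⟩ := ih (k + 1)
    refine ⟨K + Fintype.card (I (k + 1)), fun w => ?_⟩
    have h1 := hK w
    have h2 := flen_kill w k
    have h3 := fcnt_le (willkill (k + 1) d) w k
    have h4 : fcnt (willkill k (d + 1)) w k ≤
        fcnt (kill k) w k + fcnt (willkill (k + 1) d) w k := by
      classical
      refine le_trans (fcnt_mono (A' := fun b => kill k b ∨ willkill (k + 1) d b) ?_ w k)
        (fcnt_or _ _ w k)
      rintro b ⟨j, hj, hb⟩
      cases j with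
      | zero => left; exact hb
      | succ j =>
        right
        exact ⟨j, by omega, by rw [show k + 1 + j = k + (j + 1) by omega]; exact hb⟩
    have h5 : k + 1 + d = k + (d + 1) := by omega
    rw [h5] at h1
    omega

/-- every small type is killed in a suitable window -/
theorem exists_window (C k : ℕ) : ∃ d, ∀ b : T, cst b ≤ C → willkill k d b := by
  -- for each pair there is a killing level
  have h1 : ∀ p q : ℕ, ∃ j, ∀ r : ℕ, kill (k + j) (p, q, r) := by
    intro p q
    by_cases h : p = 0 ∧ q = 0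
    · refine ⟨0, fun r => ?_⟩
      unfold kill rho cz
      simp [h.1, h.2]
    · obtain ⟨n, hn, hpq⟩ := exists_pq p q k h
      refine ⟨n - k, fun r => ?_⟩
      have : k + (n - k) = n := by omega
      rw [this]
      unfold kill rho cz
      rw [hpq]
      simp only
      rw [mul_comm, sub_self, Int.cast_zero]
  choose j hj using h1
  refine ⟨(∑ p ∈ Finset.range (C + 1), ∑ q ∈ Finset.range (C + 1), j p q) + 1, ?_⟩
  rintro ⟨p, q, r⟩ hb
  simp only [cst] at hb
  refine ⟨j p q, ?_, hj p q r⟩
  have h2 : j p q ≤ ∑ q ∈ Finset.range (C + 1), j p q :=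
    Finset.single_le_sum (f := fun q => j p q) (fun _ _ => Nat.zero_le _)
      (Finset.mem_range.2 (by omega))
  have h3 : ∑ q ∈ Finset.range (C + 1), j p q ≤
      ∑ p ∈ Finset.range (C + 1), ∑ q ∈ Finset.range (C + 1), j p q :=
    Finset.single_le_sum (f := fun p => ∑ q ∈ Finset.range (C + 1), j p q)
      (fun _ _ => Nat.zero_le _) (Finset.mem_range.2 (by omega))
  omega

theorem len_le_cnt_cost {n : ℕ} (A : T → Prop) [DecidablePred A] (C : ℕ)
    (hA : ∀ b, cst b ≤ C → A b) (l : L n) :
    (C + 1) * l.length ≤ (C + 1) * cnt A l + costL l := by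
  induction l with
  | nil => simp
  | cons a l ih =>
    obtain ⟨β, t⟩ := a
    rw [cnt_cons, costL_cons, List.length_cons]
    by_cases h : A β
    · rw [if_pos h]
      nlinarith
    · rw [if_neg h]
      have h1 : C + 1 ≤ cst β := by
        by_contra h2
        exact h (hA β (by omega))
      nlinarith

theorem contraction (C k : ℕ) : ∃ k' K : ℕ, k ≤ k' ∧ ∀ w : W 0,
    3 * (C + 1) * flen w k' ≤ 2 * (C + 1) * flen w k + costL w.2 + K := by
  obtain ⟨d, hd⟩ := exists_window C k
  obtain ⟨K, hK⟩ := window d k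
  refine ⟨k + d, (C + 1) * K, by omega, fun w => ?_⟩
  have h1 := hK w
  have h2 : (C + 1) * flen w k ≤ (C + 1) * fcnt (willkill k d) w k + fcost w k := by
    unfold flen fcnt fcost
    rw [Finset.mul_sum, Finset.mul_sum, ← Finset.sum_add_distrib]
    exact Finset.sum_le_sum fun i _ => len_le_cnt_cost _ C hd _
  rw [fcost_eq] at h2
  have h3 : (C + 1) * (fcnt (willkill k d) w k + 3 * flen w (k + d)) ≤
      (C + 1) * (3 * flen w k + K) := Nat.mul_le_mul_left _ h1
  nlinarith

/-- the proportion of syllables tends to zero -/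
theorem contraction_iter (j : ℕ) : ∃ (k : ℕ) (K : ℝ), ∀ (w : W 0) (ℓ : ℕ),
    w.2.length ≤ ℓ → costL w.2 ≤ ℓ → (flen w k : ℝ) ≤ (5 / 6 : ℝ) ^ j * ℓ + K := by
  induction j with
  | zero =>
    refine ⟨0, 0, fun w ℓ h1 _ => ?_⟩
    rw [flen_zero]
    simp only [pow_zero, one_mul, add_zero]
    exact_mod_cast h1
  | succ j ih =>
    obtain ⟨k, K, hK⟩ := ih
    obtain ⟨C, hC⟩ := exists_nat_gt (2 * (6 / 5 : ℝ) ^ j)
    obtain ⟨k', K', hk, hK'⟩ := contraction C k
    refine ⟨k', K + K', fun w ℓ h1 h2 => ?_⟩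
    have h3 := hK w ℓ h1 h2
    have h4 : (3 * (C + 1) * flen w k' : ℝ) ≤ 2 * (C + 1) * flen w k + costL w.2 + K' := by
      exact_mod_cast hK' w
    have h5 : (costL w.2 : ℝ) ≤ ℓ := by exact_mod_cast h2
    have hCpos : (0 : ℝ) < C + 1 := by positivity
    have hp : (0 : ℝ) < (5 / 6 : ℝ) ^ j := by positivity
    have h6 : 1 ≤ (C + 1 : ℝ) * ((5 / 6 : ℝ) ^ j / 2) := by
      have h7 : (6 / 5 : ℝ) ^ j * (5 / 6 : ℝ) ^ j = 1 := by
        rw [← mul_pow]; norm_num
      nlinarith
    have hl : (0 : ℝ) ≤ ℓ := Nat.cast_nonneg _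
    have hK0 : (0 : ℝ) ≤ K' := Nat.cast_nonneg _
    have hKnn : 0 ≤ K := by
      have := hK (0, []) 0 (by simp) (by simp [costL])
      have h8 : (0 : ℝ) ≤ flen ((0, []) : W 0) k := Nat.cast_nonneg _
      simp only [Nat.cast_zero, mul_zero, zero_add] at this
      linarith
    -- divide by 3 (C+1)
    have h8 : (C + 1 : ℝ) * (3 * flen w k') ≤
        (C + 1 : ℝ) * (2 * ((5 / 6 : ℝ) ^ j * ℓ + K) + ((5 / 6 : ℝ) ^ j / 2) * ℓ + K') := by
      have h9 : (ℓ : ℝ) ≤ (C + 1 : ℝ) * ((5 / 6 : ℝ) ^ j / 2) * ℓ := by nlinarith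
      have h10 : (K' : ℝ) ≤ (C + 1) * K' := by nlinarith [(Nat.cast_nonneg C : (0 : ℝ) ≤ C)]
      nlinarith
    have h9 := le_of_mul_le_mul_left h8 hCpos
    rw [pow_succ]
    nlinarith

theorem contraction_final (ε : ℝ) (hε : 0 < ε) : ∃ (N : ℕ) (K : ℝ), m N = 2 ∧
    ∀ (w : W 0) (ℓ : ℕ), w.2.length ≤ ℓ → costL w.2 ≤ ℓ → (flen w N : ℝ) ≤ ε * ℓ + K := by
  obtain ⟨j, hj⟩ := exists_pow_lt_of_lt_one hε (by norm_num : (5 / 6 : ℝ) < 1)
  obtain ⟨k, K, hK⟩ := contraction_iter j
  obtain ⟨n, hn, hpq⟩ := exists_pq 1 0 k (by omega)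
  refine ⟨n + 1, K, ?_, fun w ℓ h1 h2 => ?_⟩
  · show (pq n).1 + (pq n).2 + 1 = 2
    rw [hpq]
    simp
  · have h3 : (flen w (n + 1) : ℝ) ≤ flen w k := by exact_mod_cast flen_mono w (by omega)
    have h4 := hK w ℓ h1 h2
    have h5 : (5 / 6 : ℝ) ^ j * ℓ ≤ ε * ℓ :=
      mul_le_mul_of_nonneg_right hj.le (Nat.cast_nonneg _)
    linarith

/-- code of the rotations at levels `< n` -/
def E : ℕ → Type
  | 0 => Unit
  | n + 1 => E n × (I n → ZMod (m n) × ZMod (m n))

noncomputable instance instFintypeE : ∀ n, Fintype (E n)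
  | 0 => inferInstanceAs (Fintype Unit)
  | n + 1 => by
    classical
    haveI := instFintypeE n
    exact inferInstanceAs (Fintype (E n × (I n → ZMod (m n) × ZMod (m n))))

def code (w : W 0) : ∀ n, E n
  | 0 => ()
  | n + 1 => (code w n, fun i => ((fam w n i).1, tot n (fam w n i).2))

theorem determined (w w' : W 0) (n : ℕ) (hc : code w n = code w' n)
    (hf : ∀ i, act n (fam w n i) = act n (fam w' n i)) : act 0 w = act 0 w' := by
  induction n with
  | zero => exact hf ()
  | succ n ih =>
    have hc' : (code w n, fun i => ((fam w n i).1, tot n (fam w n i).2)) =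
      (code w' n, fun i => ((fam w' n i).1, tot n (fam w' n i).2)) := hc
    rw [Prod.mk.injEq] at hc'
    apply ih hc'.1
    intro i
    have h1 := congrFun hc'.2 i
    rw [Prod.mk.injEq] at h1
    funext y
    rw [act_eq n (fam w n i), act_eq n (fam w' n i), h1.1, h1.2]
    have h2 := hf (i, y.1 n + (fam w' n i).1)
    rw [fam_succ, fam_succ] at h2
    rw [h2]

end Pool.Agent.Helper67.SG
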