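import Mathlib
import Pool.Agent.Helper67.SemiGrowth.Fam

set_option autoImplicit false

namespace Pool.Agent.Helper67.SG

/-- weight of a list of syllables -/
noncomputable def wt (x z : ℝ) {R : Type} (l : List (T × R)) : ℝ :=
  (l.map fun a => z * x ^ cst a.1).prod

theorem wt_cons (x z : ℝ) {R : Type} (a : T × R) (l : List (T × R)) :
    wt x z (a :: l) = (z * x ^ cst a.1) * wt x z l := by
  simp [wt]

theorem wt_eq (x z : ℝ) {R : Type} (l : List (T × R)) :
    wt x z l = z ^ l.length * x ^ ((l.map fun a => cst a.1).sum) := by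
  induction l with
  | nil => simp [wt]
  | cons a l ih =>
    rw [wt_cons, ih, List.length_cons, List.map_cons, List.sum_cons, pow_succ, pow_add]
    ring

theorem wt_nonneg {x z : ℝ} (hx : 0 ≤ x) (hz : 0 ≤ z) {R : Type} (l : List (T × R)) :
    0 ≤ wt x z l := by
  rw [wt_eq]; positivity

/-- alphabet sum -/
theorem alph_sum {x z : ℝ} (hx : 0 < x) (hx1 : x < 1) (hz : 0 < z) {R : Type} [Fintype R]
    (S : Finset (T × R)) :
    ∑ a ∈ S, z * x ^ cst a.1 ≤ z * (Fintype.card R * ((1 - x)⁻¹) ^ 3) := by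
  classical
  -- big box
  set N := S.sup (fun a => cst a.1) + 1 with hN
  have hsub : S ⊆ (Finset.range N ×ˢ (Finset.range N ×ˢ Finset.range N)) ×ˢ
      (Finset.univ : Finset R) := by
    intro a ha
    have h1 : cst a.1 < N := by
      rw [hN]
      exact Nat.lt_succ_of_le (Finset.le_sup (f := fun a : T × R => cst a.1) ha)
    unfold cst at h1
    simp only [Finset.mem_product, Finset.mem_range, Finset.mem_univ, and_true]
    omega
  have hg : ∑ p ∈ Finset.range N, x ^ p ≤ (1 - x)⁻¹ := by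
    have h1 := (summable_geometric_of_lt_one hx.le hx1).sum_le_tsum (Finset.range N)
      (fun i _ => by positivity)
    rw [tsum_geometric_of_lt_one hx.le hx1] at h1
    exact h1
  have hg0 : 0 ≤ ∑ p ∈ Finset.range N, x ^ p := Finset.sum_nonneg fun i _ => by positivity
  calc ∑ a ∈ S, z * x ^ cst a.1
      ≤ ∑ a ∈ (Finset.range N ×ˢ (Finset.range N ×ˢ Finset.range N)) ×ˢ
        (Finset.univ : Finset R), z * x ^ cst a.1 :=
        Finset.sum_le_sum_of_subset_of_nonneg hsub fun a _ _ => by positivity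
    _ = z * (Fintype.card R * (∑ p ∈ Finset.range N, x ^ p) ^ 3) := by
        rw [Finset.sum_product]
        simp only [Finset.sum_const, Finset.card_univ, nsmul_eq_mul]
        rw [← Finset.mul_sum, Finset.sum_product]
        have h2 : ∀ p ∈ Finset.range N, ∑ y ∈ Finset.range N ×ˢ Finset.range N,
            z * x ^ cst (p, y) = z * x ^ p * (∑ q ∈ Finset.range N, x ^ q) ^ 2 := by
          intro p _
          rw [Finset.sum_product, sq, Finset.sum_mul_sum, Finset.mul_sum]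
          refine Finset.sum_congr rfl fun q _ => ?_
          rw [Finset.mul_sum]
          refine Finset.sum_congr rfl fun r _ => ?_
          simp only [cst, pow_add]
          ring
        rw [Finset.sum_congr rfl h2, ← Finset.sum_mul, ← Finset.mul_sum]
        ring
    _ ≤ z * (Fintype.card R * ((1 - x)⁻¹) ^ 3) := by
        gcongr

theorem list_sum {x z : ℝ} (hx : 0 < x) (hx1 : x < 1) (hz : 0 < z) {R : Type} [Fintype R]
    (hzK : z * (Fintype.card R * ((1 - x)⁻¹) ^ 3) ≤ 1 / 2) (s : ℕ) :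
    ∀ S : Finset (List (T × R)), (∀ l ∈ S, l.length ≤ s) → ∑ l ∈ S, wt x z l ≤ 2 := by
  classical
  induction s with
  | zero =>
    intro S hS
    have hsub : S ⊆ {[]} := by
      intro l hl
      have := hS l hl
      simp only [Finset.mem_singleton]
      exact List.length_eq_zero_iff.1 (by omega)
    calc ∑ l ∈ S, wt x z l ≤ ∑ l ∈ {[]}, wt x z l :=
          Finset.sum_le_sum_of_subset_of_nonneg hsub fun a _ _ => wt_nonneg hx.le hz.le _
      _ = 1 := by simp [wt]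
      _ ≤ 2 := by norm_num
  | succ s ih =>
    intro S hS
    -- heads and tails
    set Hd : Finset (T × R) := S.biUnion (fun l => l.head?.toFinset) with hHd
    set Tl : Finset (List (T × R)) := S.image List.tail with hTl
    have hsub : S ⊆ {[]} ∪ (Hd ×ˢ Tl).image (fun p => p.1 :: p.2) := by
      intro l hl
      cases l with
      | nil => simp
      | cons a l =>
        rw [Finset.mem_union, Finset.mem_image]
        right
        refine ⟨(a, l), ?_, rfl⟩
        rw [Finset.mem_product]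
        constructor
        · rw [hHd, Finset.mem_biUnion]
          exact ⟨a :: l, hl, by simp⟩
        · rw [hTl, Finset.mem_image]
          exact ⟨a :: l, hl, rfl⟩
    have hTs : ∀ l ∈ Tl, l.length ≤ s := by
      intro l hl
      rw [hTl, Finset.mem_image] at hl
      obtain ⟨l', hl', rfl⟩ := hl
      have := hS l' hl'
      rw [List.length_tail]
      omega
    have h1 := ih Tl hTs
    have h2 := alph_sum hx hx1 hz Hd
    have h3 : 0 ≤ ∑ l ∈ Tl, wt x z l := Finset.sum_nonneg fun l _ => wt_nonneg hx.le hz.le _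
    calc ∑ l ∈ S, wt x z l
        ≤ ∑ l ∈ {[]} ∪ (Hd ×ˢ Tl).image (fun p => p.1 :: p.2), wt x z l :=
          Finset.sum_le_sum_of_subset_of_nonneg hsub fun a _ _ => wt_nonneg hx.le hz.le _
      _ ≤ ∑ l ∈ {[]}, wt x z l + ∑ l ∈ (Hd ×ˢ Tl).image (fun p => p.1 :: p.2), wt x z l := by
          have := Finset.sum_union_inter (s₁ := ({[]} : Finset (List (T × R))))
            (s₂ := (Hd ×ˢ Tl).image (fun p => p.1 :: p.2)) (f := fun l => wt x z l)
          have h4 : 0 ≤ ∑ l ∈ {[]} ∩ (Hd ×ˢ Tl).image (fun p => p.1 :: p.2), wt x z l :=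
            Finset.sum_nonneg fun l _ => wt_nonneg hx.le hz.le _
          linarith
      _ = 1 + ∑ p ∈ Hd ×ˢ Tl, wt x z (p.1 :: p.2) := by
          rw [Finset.sum_image]
          · simp [wt]
          · rintro ⟨a, l⟩ _ ⟨a', l'⟩ _ h
            simp only [List.cons.injEq] at h
            exact Prod.ext h.1 h.2
      _ = 1 + (∑ a ∈ Hd, z * x ^ cst a.1) * ∑ l ∈ Tl, wt x z l := by
          rw [Finset.sum_mul_sum, Finset.sum_product]
          simp only [wt_cons]
      _ ≤ 1 + (1 / 2) * 2 := by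
          have h5 : (∑ a ∈ Hd, z * x ^ cst a.1) * ∑ l ∈ Tl, wt x z l ≤ (1 / 2) * 2 :=
            mul_le_mul (h2.trans hzK) h1 h3 (by norm_num)
          linarith
      _ = 2 := by norm_num

/-- weight of a family -/
theorem fam_count {x z : ℝ} (hx : 0 < x) (hx1 : x < 1) (hz : 0 < z) (N : ℕ)
    (hzK : z * (Fintype.card (ZMod (m N)) * ((1 - x)⁻¹) ^ 3) ≤ 1 / 2)
    (S : Finset (I N → W N)) :
    ∑ F ∈ S, ∏ i, wt x z (F i).2 ≤ (2 * m N : ℝ) ^ Fintype.card (I N) := by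
  classical
  set Wd : Finset (W N) := (S ×ˢ (Finset.univ : Finset (I N))).image (fun p => p.1 p.2) with hWd
  have hsub : S ⊆ Fintype.piFinset (fun _ : I N => Wd) := by
    intro F hF
    rw [Fintype.mem_piFinset]
    intro i
    rw [hWd, Finset.mem_image]
    exact ⟨(F, i), by simp [hF], rfl⟩
  have h1 : ∑ w ∈ Wd, wt x z w.2 ≤ 2 * m N := by
    set Ls : Finset (L N) := Wd.image Prod.snd with hLs
    have h2 : Wd ⊆ (Finset.univ : Finset (ZMod (m N))) ×ˢ Ls := by
      intro w hw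
      rw [Finset.mem_product]
      exact ⟨Finset.mem_univ _, Finset.mem_image_of_mem _ hw⟩
    calc ∑ w ∈ Wd, wt x z w.2
        ≤ ∑ w ∈ (Finset.univ : Finset (ZMod (m N))) ×ˢ Ls, wt x z w.2 :=
          Finset.sum_le_sum_of_subset_of_nonneg h2 fun a _ _ => wt_nonneg hx.le hz.le _
      _ = m N * ∑ l ∈ Ls, wt x z l := by
          rw [Finset.sum_product]
          simp [ZMod.card]
      _ ≤ m N * 2 := by
          have h3 := list_sum hx hx1 hz hzK (Ls.sup List.length) Ls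
            (fun l hl => Finset.le_sup (f := List.length) hl)
          exact mul_le_mul_of_nonneg_left h3 (Nat.cast_nonneg _)
      _ = 2 * m N := by ring
  have h0 : 0 ≤ ∑ w ∈ Wd, wt x z w.2 := Finset.sum_nonneg fun l _ => wt_nonneg hx.le hz.le _
  calc ∑ F ∈ S, ∏ i, wt x z (F i).2
      ≤ ∑ F ∈ Fintype.piFinset (fun _ : I N => Wd), ∏ i, wt x z (F i).2 :=
        Finset.sum_le_sum_of_subset_of_nonneg hsub fun a _ _ =>
          Finset.prod_nonneg fun i _ => wt_nonneg hx.le hz.le _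
    _ = ∏ i : I N, ∑ w ∈ Wd, wt x z w.2 :=
        (Finset.prod_univ_sum (fun _ : I N => Wd) (fun _ w => wt x z w.2)).symm
    _ = (∑ w ∈ Wd, wt x z w.2) ^ Fintype.card (I N) := by
        rw [Finset.prod_const, Finset.card_univ]
    _ ≤ (2 * m N : ℝ) ^ Fintype.card (I N) := pow_le_pow_left₀ h0 h1 _

theorem fam_card {x z : ℝ} (hx : 0 < x) (hx1 : x < 1) (hz : 0 < z) (hz1 : z ≤ 1) (N : ℕ)
    (hzK : z * (Fintype.card (ZMod (m N)) * ((1 - x)⁻¹) ^ 3) ≤ 1 / 2)
    (S : Finset (I N → W N)) (ℓ : ℕ) (s : ℝ)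
    (hS : ∀ F ∈ S, ((∑ i, (F i).2.length : ℕ) : ℝ) ≤ s ∧ ∑ i, costL (F i).2 ≤ ℓ) :
    (S.card : ℝ) * (z ^ s * x ^ ℓ) ≤ (2 * m N : ℝ) ^ Fintype.card (I N) := by
  refine le_trans ?_ (fam_count hx hx1 hz N hzK S)
  rw [← nsmul_eq_mul, ← Finset.sum_const]
  refine Finset.sum_le_sum fun F hF => ?_
  have h1 : ∏ i, wt x z (F i).2 = z ^ (∑ i, (F i).2.length) * x ^ (∑ i, costL (F i).2) := by
    simp only [wt_eq]
    rw [Finset.prod_mul_distrib, Finset.prod_pow_eq_pow_sum, Finset.prod_pow_eq_pow_sum]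
    rfl
  rw [h1]
  have h2 : z ^ s ≤ z ^ (∑ i, (F i).2.length) := by
    rw [← Real.rpow_natCast]
    exact Real.rpow_le_rpow_of_exponent_ge hz hz1 (hS F hF).1
  have h3 : x ^ ℓ ≤ x ^ (∑ i, costL (F i).2) :=
    pow_le_pow_of_le_one hx.le hx1.le (hS F hF).2
  exact mul_le_mul h2 h3 (by positivity) (by positivity)

/-- the counting bound -/
theorem count_bound {x z : ℝ} (hx : 0 < x) (hx1 : x < 1) (hz : 0 < z) (hz1 : z ≤ 1) (N : ℕ)
    (hzK : z * (Fintype.card (ZMod (m N)) * ((1 - x)⁻¹) ^ 3) ≤ 1 / 2) (ℓ : ℕ) (s : ℝ)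
    (hs : ∀ w : W 0, w.2.length ≤ ℓ → costL w.2 ≤ ℓ → (flen w N : ℝ) ≤ s)
    (G : Finset (Y → Y)) (hG : ∀ g ∈ G, ∃ w : W 0, w.2.length ≤ ℓ ∧ costL w.2 ≤ ℓ ∧ act 0 w = g) :
    (G.card : ℝ) * (z ^ s * x ^ ℓ) ≤
      Fintype.card (E N) * (2 * m N : ℝ) ^ Fintype.card (I N) := by
  classical
  choose! w hw1 hw2 hw3 using hG
  set S : Finset (I N → W N) := G.image (fun g => fam (w g) N) with hSdef
  have h1 : G.card ≤ Fintype.card (E N) * S.card := by
    rw [← Finset.card_univ, ← Finset.card_product]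
    refine Finset.card_le_card_of_injOn (fun g => (code (w g) N, fam (w g) N)) ?_ ?_
    · intro g hg
      simp only [Finset.coe_product, Set.mem_prod, Finset.mem_coe, Finset.mem_univ, true_and]
      exact Finset.mem_image_of_mem _ hg
    · intro g hg g' hg' h
      simp only [Prod.mk.injEq] at h
      rw [← hw3 g hg, ← hw3 g' hg']
      exact determined _ _ N h.1 (fun i => by rw [h.2])
  have h2 := fam_card hx hx1 hz hz1 N hzK S ℓ s (by
    intro F hF
    rw [hSdef, Finset.mem_image] at hF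
    obtain ⟨g, hg, rfl⟩ := hF
    refine ⟨hs (w g) (hw1 g hg) (hw2 g hg), ?_⟩
    have := fcost_eq (w g) N
    unfold fcost at this
    rw [this]
    exact hw2 g hg)
  have h3 : (G.card : ℝ) ≤ Fintype.card (E N) * S.card := by exact_mod_cast h1
  calc (G.card : ℝ) * (z ^ s * x ^ ℓ)
      ≤ (Fintype.card (E N) * S.card) * (z ^ s * x ^ ℓ) :=
        mul_le_mul_of_nonneg_right h3 (by positivity)
    _ = Fintype.card (E N) * (S.card * (z ^ s * x ^ ℓ)) := by ring
    _ ≤ _ := mul_le_mul_of_nonneg_left h2 (Nat.cast_nonneg _)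

/-- subexponential growth -/
theorem subexp (c : ℝ) (hc : 1 < c) : ∃ N₀ : ℕ, ∀ ℓ ≥ N₀, ∀ G : Finset (Y → Y),
    (∀ g ∈ G, ∃ w : W 0, w.2.length ≤ ℓ ∧ costL w.2 ≤ ℓ ∧ act 0 w = g) →
    (G.card : ℝ) ≤ c ^ ℓ := by
  have hc0 : 0 < c := by linarith
  -- d = c^(1/3)
  obtain ⟨d, hd1, hd3⟩ : ∃ d : ℝ, 1 < d ∧ d ^ 3 = c := by
    refine ⟨c ^ (1 / 3 : ℝ), Real.one_lt_rpow hc (by norm_num), ?_⟩
    rw [← Real.rpow_natCast, ← Real.rpow_mul hc0.le]
    norm_num
  have hd0 : 0 < d := by linarith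
  set x : ℝ := d⁻¹ with hx
  have hx0 : 0 < x := inv_pos.2 hd0
  have hx1 : x < 1 := inv_lt_one_of_one_lt₀ hd1
  have h1x : 0 < 1 - x := by linarith
  have hK1 : 1 ≤ (1 - x)⁻¹ := by
    rw [one_le_inv₀ h1x]; linarith
  set z : ℝ := (2 * (2 * ((1 - x)⁻¹) ^ 3))⁻¹ with hz
  have hKpos : 0 < 2 * (2 * ((1 - x)⁻¹) ^ 3) := by positivity
  have hz0 : 0 < z := inv_pos.2 hKpos
  have hz1 : z ≤ 1 := by
    rw [hz]
    apply inv_le_one_of_one_le₀
    have : 1 ≤ ((1 - x)⁻¹) ^ 3 := one_le_pow₀ hK1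
    linarith
  -- epsilon with z^(-eps) ≤ d
  have hlz : 0 ≤ -Real.log z := by
    have := Real.log_nonpos hz0.le hz1
    linarith
  have hld : 0 < Real.log d := Real.log_pos hd1
  set ε : ℝ := Real.log d / (-Real.log z + 1) with hε
  have hε0 : 0 < ε := div_pos hld (by linarith)
  have hεz : d⁻¹ ≤ z ^ ε := by
    rw [Real.rpow_def_of_pos hz0, ← Real.exp_log hd0, ← Real.exp_neg, Real.exp_le_exp]
    have h1 : ε * (-Real.log z + 1) = Real.log d := by
      rw [hε]; field_simp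
    have h2 : ε * (-Real.log z) ≤ Real.log d := by nlinarith
    nlinarith
  obtain ⟨N, K, hmN, hN⟩ := contraction_final ε hε0
  set Cst : ℝ := Fintype.card (E N) * (2 * m N : ℝ) ^ Fintype.card (I N) * (z ^ K)⁻¹ with hCst
  have hKz : 0 < z ^ K := Real.rpow_pos_of_pos hz0 _
  obtain ⟨N₀, hN₀⟩ := pow_unbounded_of_one_lt Cst hd1
  refine ⟨N₀, fun ℓ hℓ G hG => ?_⟩
  have h1 := count_bound hx0 hx1 hz0 hz1 N (by
    rw [ZMod.card, hmN, hz]
    apply le_of_eq
    push_cast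
    field_simp) ℓ (ε * ℓ + K) (fun w h1 h2 => hN w ℓ h1 h2) G hG
  have h2 : z ^ (ε * ℓ + K) = (z ^ ε) ^ ℓ * z ^ K := by
    rw [Real.rpow_add hz0, Real.rpow_mul hz0.le, Real.rpow_natCast]
  rw [h2] at h1
  have h3 : (d⁻¹) ^ ℓ ≤ (z ^ ε) ^ ℓ := pow_le_pow_left₀ (by positivity) hεz _
  have h4 : (G.card : ℝ) * ((d⁻¹) ^ ℓ * z ^ K * x ^ ℓ) ≤
      Fintype.card (E N) * (2 * m N : ℝ) ^ Fintype.card (I N) := by
    refine le_trans ?_ h1
    gcongr
  have h5 : (G.card : ℝ) * ((d⁻¹) ^ ℓ * x ^ ℓ) ≤ Cst := by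
    rw [hCst, le_mul_inv_iff₀ hKz]
    calc _ = (G.card : ℝ) * ((d⁻¹) ^ ℓ * z ^ K * x ^ ℓ) := by ring
      _ ≤ _ := h4
  have h6 : Cst ≤ d ^ ℓ := hN₀.le.trans (pow_le_pow_right₀ hd1.le hℓ)
  have h7 : (G.card : ℝ) * ((d⁻¹) ^ ℓ * x ^ ℓ) ≤ d ^ ℓ := h5.trans h6
  have h8 : (d⁻¹) ^ ℓ * x ^ ℓ = (d ^ ℓ * d ^ ℓ)⁻¹ := by
    rw [hx, inv_pow, mul_inv]
  rw [h8, ← div_eq_mul_inv, div_le_iff₀ (by positivity)] at h7
  calc (G.card : ℝ) ≤ d ^ ℓ * (d ^ ℓ * d ^ ℓ) := h7
    _ = c ^ ℓ := by rw [← hd3]; ring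

end Pool.Agent.Helper67.SG
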