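import Mathlib
import Pool.Agent.Helper67.SemiGrowth.Act

set_option autoImplicit false

namespace Pool.Agent.Helper67.SG

/-- the never killed element -/
def b0 : B := (1, -1, 0)

theorem rho_b0 (n : ℕ) : rho n b0 = -1 := by
  unfold rho b0
  have h : (((pq n).1 + (pq n).2 + 1 : ℕ) : ZMod (m (n + 1))) = 0 := by
    show ((m (n + 1) : ℕ) : ZMod (m (n + 1))) = 0
    exact ZMod.natCast_self _
  push_cast at h ⊢
  linear_combination h

noncomputable def zf (n : ℕ) (y : Y) : Y := rot n (-1) (bact n b0 y)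

theorem zf_self (n : ℕ) (y : Y) : (zf n y).1 n = y.1 n - 1 := by
  unfold zf
  rw [rot_apply_self, bact_apply_le le_rfl, sub_eq_add_neg]

theorem zf_lt {n k : ℕ} (h : k < n) (y : Y) : (zf n y).1 k = y.1 k := by
  unfold zf
  rw [rot_apply_ne (by omega), bact_apply_le h.le]

theorem zf_snd (n : ℕ) (y : Y) : (zf n y).2 = y.2 := by
  unfold zf
  rw [rot_snd]
  rcases first_or_zero n y with h | ⟨k, hk, hk0, hk1⟩
  · rw [bact_of_zero b0 h]; simp [b0]
  · rw [bact_of_first b0 hk hk0 hk1]
    split_ifs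
    · rfl
    · rfl

theorem zf_iter_self (n i : ℕ) (y : Y) : ((zf n)^[i] y).1 n = y.1 n - i := by
  induction i with
  | zero => simp
  | succ i ih =>
    rw [Function.iterate_succ_apply', zf_self, ih]
    push_cast
    ring

theorem zf_iter_snd (n i : ℕ) (y : Y) : ((zf n)^[i] y).2 = y.2 := by
  induction i with
  | zero => simp
  | succ i ih => rw [Function.iterate_succ_apply', zf_snd, ih]

theorem natCast_ne_zero' {n j : ℕ} (h1 : 1 ≤ j) (h2 : j < m n) : (j : ZMod (m n)) ≠ 0 := by
  intro h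
  rw [ZMod.natCast_eq_zero_iff] at h
  exact absurd (Nat.le_of_dvd (by omega) h) (by omega)

theorem zf_iter_mid (n : ℕ) (y : Y) (hy : y.1 n = 0) (j : ℕ) (h1 : 1 ≤ j) (h2 : j < m n) :
    (zf n)^[j] y = rot n (-(j : ZMod (m n))) (bact (n + 1) b0 y) := by
  induction j, h1 using Nat.le_induction with
  | base =>
    rw [Function.iterate_one]
    unfold zf
    rw [bact_rec, if_pos hy]
    simp
  | succ j hj ih =>
    have ih := ih (by omega)
    rw [Function.iterate_succ_apply', ih]
    have hv : (rot n (-(j : ZMod (m n))) (bact (n + 1) b0 y)).1 n = -(j : ZMod (m n)) := by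
      rw [rot_apply_self, bact_apply_le (by omega), hy, zero_add]
    have hv0 : -(j : ZMod (m n)) ≠ 0 := neg_ne_zero.2 (natCast_ne_zero' hj (by omega))
    have hv1 : -(j : ZMod (m n)) ≠ 1 := by
      intro h
      have h3 : ((j + 1 : ℕ) : ZMod (m n)) ≠ 0 := natCast_ne_zero' (by omega) h2
      apply h3
      push_cast
      linear_combination -h
    unfold zf
    rw [bact_rec, hv, if_neg hv0, if_neg hv1, rot_rot]
    congr 1
    push_cast
    ring

theorem zf_return (n : ℕ) (y : Y) (hy : y.1 n = 0) : (zf n)^[m n] y = zf (n + 1) y := by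
  have h2 := two_le_m n
  obtain ⟨j, hj⟩ : ∃ j, m n = j + 1 := ⟨m n - 1, by omega⟩
  have hmid := zf_iter_mid n y hy j (by omega) (by omega)
  have hcast : ((j + 1 : ℕ) : ZMod (m n)) = 0 := by
    rw [← hj]; exact ZMod.natCast_self _
  have hj1 : -(j : ZMod (m n)) = 1 := by
    push_cast at hcast
    linear_combination -hcast
  have : (zf n)^[m n] y = zf n ((zf n)^[j] y) := by
    conv_lhs => rw [hj]
    rw [Function.iterate_succ_apply']
  rw [this, hmid, hj1]
  have hv : (rot n 1 (bact (n + 1) b0 y)).1 n = 1 := by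
    rw [rot_apply_self, bact_apply_le (by omega), hy, zero_add]
  have h10 : (1 : ZMod (m n)) ≠ 0 := one_ne_zero
  unfold zf
  rw [bact_rec, hv, if_neg h10, if_pos rfl, rho_b0, rot_comm (by omega : n + 1 ≠ n), rot_rot,
    add_neg_cancel, rot_zero]

theorem zf_return_iter (n : ℕ) (y : Y) (hy : y.1 n = 0) (j : ℕ) :
    (zf n)^[m n * j] y = (zf (n + 1))^[j] y ∧ ((zf (n + 1))^[j] y).1 n = 0 := by
  induction j with
  | zero => simp [hy]
  | succ j ih =>
    obtain ⟨ih1, ih2⟩ := ih
    constructor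
    · rw [Nat.mul_succ, add_comm, Function.iterate_add_apply, ih1, zf_return n _ ih2,
        Function.iterate_succ_apply']
    · rw [Function.iterate_succ_apply', zf_lt (by omega), ih2]

theorem no_return (i : ℕ) : ∀ (n : ℕ) (y : Y), 1 ≤ i → (∀ k, n ≤ k → y.1 k = 0) →
    (zf n)^[i] y ≠ y := by
  induction i using Nat.strong_induction_on with
  | _ i ih =>
    intro n y hi hy h
    have h1 := zf_iter_self n i y
    rw [h] at h1
    have h2 : (i : ZMod (m n)) = 0 := by linear_combination h1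
    rw [ZMod.natCast_eq_zero_iff] at h2
    obtain ⟨j, rfl⟩ := h2
    have hj : 1 ≤ j := by
      rcases Nat.eq_zero_or_pos j with h3 | h3
      · subst h3; simp at hi
      · exact h3
    have h3 := two_le_m n
    have hlt : j < m n * j := by nlinarith
    rw [(zf_return_iter n y (hy n le_rfl) j).1] at h
    exact ih j hlt (n + 1) y hj (fun k hk => hy k (by omega)) h

theorem no_return' (i : ℕ) (hi : 1 ≤ i) (y : Y) (hy : y.1 = 0) : ((zf 0)^[i] y).1 ≠ 0 := by
  intro h
  apply no_return i 0 y hi (fun k _ => by rw [hy]; rfl)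
  exact Prod.ext (h.trans hy.symm) (zf_iter_snd 0 i y)

/-- the lamp -/
theorem lamp_zero (r : ℤ) (y : Y) (hy : y.1 = 0) : bact 0 (0, 0, r) y = (y.1, y.2 + (r : ZMod 2)) := by
  rw [bact_of_zero _ (fun k _ => by rw [hy]; rfl)]

theorem lamp_ne (r : ℤ) (y : Y) (hy : y.1 ≠ 0) : bact 0 (0, 0, r) y = y := by
  rcases first_or_zero 0 y with h | ⟨k, hk, hk0, hk1⟩
  · exfalso; apply hy; funext k; exact h k (Nat.zero_le _)
  · rw [bact_of_first _ hk hk0 hk1]
    have : rho k (0, 0, r) = 0 := by unfold rho; simp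
    rw [this, rot_zero]
    simp

end Pool.Agent.Helper67.SG
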