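import Mathlib
import Pool.Agent.Helper67.SemiGrowth.Count
import Pool.Agent.Helper67.SemiGrowth.Odo

set_option autoImplicit false

namespace Pool.Agent.Helper67.SG

noncomputable def gens : Set (Equiv.Perm Y) :=
  {rotP 0 1, bP 0 (1, 0, 0), bP 0 (0, 1, 0), bP 0 (0, 0, 1)}

abbrev Gp : Type := Subgroup.closure gens

noncomputable def ga : Gp := ⟨rotP 0 1, Subgroup.subset_closure (by simp [gens])⟩
noncomputable def ge : Gp := ⟨bP 0 (1, 0, 0), Subgroup.subset_closure (by simp [gens])⟩
noncomputable def gf : Gp := ⟨bP 0 (0, 1, 0), Subgroup.subset_closure (by simp [gens])⟩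
noncomputable def gd : Gp := ⟨bP 0 (0, 0, 1), Subgroup.subset_closure (by simp [gens])⟩

open Classical in
noncomputable def A : Finset Gp := {ga, ge, gf, gd}

theorem mem_A (g : Gp) : g ∈ A ↔ g = ga ∨ g = ge ∨ g = gf ∨ g = gd := by
  classical
  simp [A]

theorem coe_ga (y : Y) : (ga : Equiv.Perm Y) y = rot 0 1 y := rfl
theorem coe_ge (y : Y) : (ge : Equiv.Perm Y) y = bact 0 (1, 0, 0) y := rfl
theorem coe_gf (y : Y) : (gf : Equiv.Perm Y) y = bact 0 (0, 1, 0) y := rfl
theorem coe_gd (y : Y) : (gd : Equiv.Perm Y) y = bact 0 (0, 0, 1) y := rfl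

theorem len_consB {n : ℕ} (β : T) (w : W n) : (consB β w).2.length ≤ w.2.length + 1 := by
  obtain ⟨t, l⟩ := w
  cases l with
  | nil => simp [consB]
  | cons a l =>
    obtain ⟨β', t'⟩ := a
    simp only [consB]
    split_ifs <;> simp

/-- positive words are represented by words with few syllables and small cost -/
theorem word_of_list (l : List Gp) (hl : ∀ x ∈ l, x ∈ A) :
    ∃ w : W 0, w.2.length ≤ l.length ∧ costL w.2 ≤ l.length ∧
      act 0 w = ⇑(l.prod : Equiv.Perm Y) := by
  induction l using List.reverseRecOn with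
  | nil =>
    refine ⟨(0, []), by simp, by simp [costL], ?_⟩
    funext y
    simp [act_nil]
  | append_singleton l g ih =>
    obtain ⟨w, h1, h2, h3⟩ := ih (fun x hx => hl x (List.mem_append_left _ hx))
    have hg := (mem_A g).1 (hl g (by simp))
    have hB : ∀ β : T, cst β = 1 → (∀ y, (g : Equiv.Perm Y) y = bact 0 (cz β) y) →
        ∃ w : W 0, w.2.length ≤ (l ++ [g]).length ∧ costL w.2 ≤ (l ++ [g]).length ∧
          act 0 w = ⇑(((l ++ [g]).prod : Gp) : Equiv.Perm Y) := by
      intro β hβ hgy
      refine ⟨consB β w, ?_, ?_, ?_⟩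
      · rw [List.length_append]
        exact (len_consB β w).trans (by simpa using h1)
      · rw [List.length_append, cost_consB, hβ]
        simp only [List.length_singleton]
        omega
      · funext y
        rw [act_consB, ← hgy, h3, List.prod_append, List.prod_singleton, Subgroup.coe_mul,
          Equiv.Perm.mul_apply]
    rcases hg with rfl | rfl | rfl | rfl
    · refine ⟨consR 1 w, ?_, ?_, ?_⟩
      · rw [List.length_append]
        exact h1.trans (Nat.le_add_right _ _)
      · rw [List.length_append, cost_consR]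
        exact h2.trans (Nat.le_add_right _ _)
      · funext y
        rw [act_consR, ← coe_ga, h3, List.prod_append, List.prod_singleton, Subgroup.coe_mul,
          Equiv.Perm.mul_apply]
    · exact hB (1, 0, 0) rfl (fun y => by rw [coe_ge]; rfl)
    · exact hB (0, 1, 0) rfl (fun y => by rw [coe_gf]; rfl)
    · exact hB (0, 0, 1) rfl (fun y => by rw [coe_gd]; rfl)

/-- positive ball -/
def pball (n : ℕ) : Set Gp := {g | ∃ l : List Gp, (∀ x ∈ l, x ∈ A) ∧ l.length ≤ n ∧ l.prod = g}

def ball (n : ℕ) : Set Gp :=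
  {g | ∃ l : List Gp, (∀ x ∈ l, x ∈ A ∨ x⁻¹ ∈ A) ∧ l.length ≤ n ∧ l.prod = g}

theorem pball_growth (c : ℝ) (hc : 1 < c) : ∃ N : ℕ, ∀ n ≥ N, ((pball n).ncard : ℝ) ≤ c ^ n := by
  classical
  obtain ⟨N, hN⟩ := subexp c hc
  refine ⟨N, fun n hn => ?_⟩
  by_cases hfin : (pball n).Finite
  · have h1 := hN n hn (hfin.toFinset.image (fun g : Gp => ⇑(g : Equiv.Perm Y))) (by
      intro g hg
      rw [Finset.mem_image] at hg
      obtain ⟨g', hg', rfl⟩ := hg
      rw [Set.Finite.mem_toFinset] at hg'
      obtain ⟨l, hl1, hl2, rfl⟩ := hg'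
      obtain ⟨w, h1, h2, h3⟩ := word_of_list l hl1
      exact ⟨w, h1.trans hl2, h2.trans hl2, h3⟩)
    rw [Finset.card_image_of_injective] at h1
    · rwa [Set.ncard_eq_toFinset_card _ hfin]
    · intro g g' h
      exact Subtype.ext (DFunLike.coe_injective h)
  · rw [Set.Infinite.ncard hfin]
    simp only [Nat.cast_zero]
    positivity

theorem ball_finite (n : ℕ) : (ball n).Finite := by
  have hA : {x : Gp | x ∈ A ∨ x⁻¹ ∈ A}.Finite := by
    have h1 : {x : Gp | x ∈ A}.Finite := A.finite_toSet
    have h2 : {x : Gp | x⁻¹ ∈ A}.Finite := h1.preimage (inv_injective.injOn)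
    exact h1.union h2
  induction n with
  | zero =>
    refine (Set.finite_singleton (1 : Gp)).subset ?_
    rintro g ⟨l, _, hl2, rfl⟩
    have : l = [] := List.length_eq_zero_iff.1 (by omega)
    subst this
    simp
  | succ n ih =>
    refine ((Set.finite_singleton (1 : Gp)).union (hA.image2 (· * ·) ih)).subset ?_
    rintro g ⟨l, hl1, hl2, rfl⟩
    cases l with
    | nil => left; simp
    | cons x l =>
      right
      refine ⟨x, hl1 x (by simp), l.prod,
        ⟨l, fun y hy => hl1 y (List.mem_cons_of_mem _ hy), by simp at hl2; omega, rfl⟩, ?_⟩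
      simp

theorem pball_finite (n : ℕ) : (pball n).Finite :=
  (ball_finite n).subset (by
    rintro g ⟨l, h1, h2, h3⟩
    exact ⟨l, fun x hx => Or.inl (h1 x hx), h2, h3⟩)

abbrev S : Subsemigroup Gp := Subsemigroup.closure (A : Set Gp)

theorem mem_S_list {s : Gp} (hs : s ∈ S) : ∃ l : List Gp, (∀ x ∈ l, x ∈ A) ∧ l.prod = s := by
  induction hs using Subsemigroup.closure_induction with
  | mem x hx => exact ⟨[x], by simpa using hx, by simp⟩
  | mul x y _ _ hx hy =>
    obtain ⟨l, hl, rfl⟩ := hx
    obtain ⟨l', hl', rfl⟩ := hy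
    refine ⟨l ++ l', ?_, by rw [List.prod_append]⟩
    intro x hx
    rcases List.mem_append.1 hx with h | h
    · exact hl x h
    · exact hl' x h

/-- products of two elements along a Boolean list -/
def bprod (s t : Gp) : List Bool → Gp
  | [] => 1
  | b :: l => bprod s t l * (if b then s else t)

theorem smul_bprod_mem {s t : Gp} (hs : s ∈ S) (ht : t ∈ S) (l : List Bool) :
    s * bprod s t l ∈ S := by
  induction l with
  | nil => simpa [bprod] using hs
  | cons b l ih =>
    simp only [bprod]
    rw [← mul_assoc]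
    refine Subsemigroup.mul_mem _ ih ?_
    split_ifs
    · exact hs
    · exact ht

theorem bprod_list {s t : Gp} {a b : ℕ} (hs : s ∈ pball a) (ht : t ∈ pball a) (hb : b = a)
    (l : List Bool) : bprod s t l ∈ pball (l.length * b) := by
  subst hb
  induction l with
  | nil => exact ⟨[], by simp, by simp, rfl⟩
  | cons c l ih =>
    obtain ⟨l1, h1, h2, h3⟩ := ih
    have h4 : (if c then s else t) ∈ pball b := by
      split_ifs
      · exact hs
      · exact ht
    obtain ⟨l2, h5, h6, h7⟩ := h4
    refine ⟨l1 ++ l2, ?_, ?_, ?_⟩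
    · intro x hx
      rcases List.mem_append.1 hx with h | h
      · exact h1 x h
      · exact h5 x h
    · rw [List.length_append, List.length_cons]
      nlinarith
    · simp only [bprod]
      rw [List.prod_append, h3, h7]

/-- the Ore condition -/
theorem ore {s t : Gp} (hs : s ∈ S) (ht : t ∈ S) : ∃ x ∈ S, ∃ y ∈ S, x * s = y * t := by
  by_contra hcon
  push Not at hcon
  -- products along Boolean lists of equal length are distinct
  have hinj : ∀ l l' : List Bool, l.length = l'.length → bprod s t l = bprod s t l' → l = l' := by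
    intro l
    induction l with
    | nil =>
      intro l' hlen _
      exact (List.length_eq_zero_iff.1 hlen.symm).symm
    | cons b l ih =>
      intro l' hlen h
      cases l' with
      | nil => simp at hlen
      | cons b' l' =>
        simp only [bprod] at h
        have hlen' : l.length = l'.length := by simpa using hlen
        by_cases hb : b = b'
        · subst hb
          rw [ih l' hlen' (mul_right_cancel h)]
        · exfalso
          have h1 := smul_bprod_mem hs ht l
          have h2 := smul_bprod_mem hs ht l'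
          cases b with
          | true =>
            have hb' : b' = false := by cases b' <;> simp_all
            subst hb'
            simp only [if_true, Bool.false_eq_true, if_false] at h
            exact hcon _ h1 _ h2 (by rw [mul_assoc, mul_assoc, h])
          | false =>
            have hb' : b' = true := by cases b' <;> simp_all
            subst hb'
            simp only [if_true, Bool.false_eq_true, if_false] at h
            exact hcon _ h2 _ h1 (by rw [mul_assoc, mul_assoc, h])
  obtain ⟨l1, hl1, hp1⟩ := mem_S_list hs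
  obtain ⟨l2, hl2, hp2⟩ := mem_S_list ht
  set a := l1.length + l2.length + 1 with ha
  have hsa : s ∈ pball a := ⟨l1, hl1, by omega, hp1⟩
  have hta : t ∈ pball a := ⟨l2, hl2, by omega, hp2⟩
  have ha0 : 0 < a := by omega
  obtain ⟨c, hc1, hca⟩ : ∃ c : ℝ, 1 < c ∧ c ^ a = 3 / 2 := by
    refine ⟨(3 / 2 : ℝ) ^ ((a : ℝ)⁻¹), Real.one_lt_rpow (by norm_num) (by positivity), ?_⟩
    rw [← Real.rpow_natCast, ← Real.rpow_mul (by norm_num), inv_mul_cancel₀ (by positivity),
      Real.rpow_one]
  obtain ⟨N, hN⟩ := pball_growth c hc1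
  set k := N + 1 with hk
  have hbig : N ≤ k * a := by nlinarith
  have h1 := hN (k * a) hbig
  -- injection
  have h2 : (2 ^ k : ℕ) ≤ (pball (k * a)).ncard := by
    have h3 : Function.Injective (fun f : Fin k → Bool => bprod s t (List.ofFn f)) := by
      intro f f' h
      have := hinj _ _ (by simp) h
      exact List.ofFn_injective this
    have h4 : Set.range (fun f : Fin k → Bool => bprod s t (List.ofFn f)) ⊆ pball (k * a) := by
      rintro _ ⟨f, rfl⟩
      have := bprod_list hsa hta rfl (List.ofFn f)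
      rwa [List.length_ofFn] at this
    have h5 := Set.ncard_le_ncard h4 (pball_finite _)
    rw [← Set.image_univ, Set.ncard_image_of_injective _ h3, Set.ncard_univ] at h5
    simpa using h5
  have h3 : ((2 : ℝ) ^ k) ≤ (3 / 2 : ℝ) ^ k := by
    calc ((2 : ℝ) ^ k) ≤ ((pball (k * a)).ncard : ℝ) := by exact_mod_cast h2
      _ ≤ c ^ (k * a) := h1
      _ = (3 / 2 : ℝ) ^ k := by rw [mul_comm, pow_mul, hca]
  have h4 : (3 / 2 : ℝ) ^ k < 2 ^ k := pow_lt_pow_left₀ (by norm_num) (by norm_num) (by omega)
  linarith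

theorem quot (g : Gp) : ∃ s ∈ S, ∃ t ∈ S, g = s⁻¹ * t := by
  obtain ⟨v, hv⟩ := g
  induction hv using Subgroup.closure_induction with
  | mem x hx =>
    have h1 : (⟨x, Subgroup.subset_closure hx⟩ : Gp) ∈ S := by
      apply Subsemigroup.subset_closure
      rw [Finset.mem_coe, mem_A]
      simp only [gens, Set.mem_insert_iff, Set.mem_singleton_iff] at hx
      rcases hx with rfl | rfl | rfl | rfl
      · left; rfl
      · right; left; rfl
      · right; right; left; rfl
      · right; right; right; rfl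
    refine ⟨_, h1, _, Subsemigroup.mul_mem _ h1 h1, ?_⟩
    rw [inv_mul_cancel_left]
  | one =>
    have h1 : ga ∈ S := Subsemigroup.subset_closure (by rw [Finset.mem_coe, mem_A]; left; rfl)
    refine ⟨_, h1, _, h1, ?_⟩
    rw [inv_mul_cancel]
    rfl
  | mul x y hx hy ihx ihy =>
    obtain ⟨s, hs, t, ht, hst⟩ := ihx
    obtain ⟨u, hu, v, hv, huv⟩ := ihy
    obtain ⟨p, hp, q, hq, hpq⟩ := ore ht hu
    refine ⟨p * s, Subsemigroup.mul_mem _ hp hs, q * v, Subsemigroup.mul_mem _ hq hv, ?_⟩
    have h1 : (⟨x * y, Subgroup.mul_mem _ hx hy⟩ : Gp) = ⟨x, hx⟩ * ⟨y, hy⟩ := rfl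
    rw [h1, hst, huv]
    have h2 : t * u⁻¹ = p⁻¹ * q := by
      rw [eq_inv_mul_iff_mul_eq, ← mul_assoc, hpq, mul_inv_cancel_right]
    calc s⁻¹ * t * (u⁻¹ * v) = s⁻¹ * (t * u⁻¹) * v := by group
      _ = s⁻¹ * (p⁻¹ * q) * v := by rw [h2]
      _ = (p * s)⁻¹ * (q * v) := by group
  | inv x hx ih =>
    obtain ⟨s, hs, t, ht, hst⟩ := ih
    refine ⟨t, ht, s, hs, ?_⟩
    have h1 : (⟨x⁻¹, Subgroup.inv_mem _ hx⟩ : Gp) = (⟨x, hx⟩ : Gp)⁻¹ := rfl
    rw [h1, hst]
    group

/-- the odometer -/
noncomputable def gz : Gp := ga⁻¹ * ge * gf⁻¹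

theorem coe_gz (y : Y) : (gz : Equiv.Perm Y) y = zf 0 y := by
  show (rotP 0 1)⁻¹ ((bP 0 (1, 0, 0)) ((bP 0 (0, 1, 0))⁻¹ y)) = _
  show rot 0 (-1) (bact 0 (1, 0, 0) (bact 0 (-(0, 1, 0)) y)) = _
  rw [bact_add]
  rfl

theorem coe_gz_pow (i : ℕ) (y : Y) : ((gz ^ i : Gp) : Equiv.Perm Y) y = (zf 0)^[i] y := by
  induction i with
  | zero => rfl
  | succ i ih =>
    rw [pow_succ', Subgroup.coe_mul, Equiv.Perm.mul_apply, ih, coe_gz,
      Function.iterate_succ_apply']

/-- lamp or not -/
noncomputable def lam (b : Bool) : Gp := if b then gd else 1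

theorem coe_lam_ne (b : Bool) (y : Y) (hy : y.1 ≠ 0) : (lam b : Equiv.Perm Y) y = y := by
  cases b with
  | true => exact lamp_ne 1 y hy
  | false => rfl

theorem coe_lam_zero (b : Bool) (y : Y) (hy : y.1 = 0) :
    (lam b : Equiv.Perm Y) y = (y.1, y.2 + if b then 1 else 0) := by
  cases b with
  | true =>
    refine (lamp_zero 1 y hy).trans ?_
    simp
  | false =>
    show y = _
    simp

noncomputable def gL : List Bool → Gp
  | [] => 1
  | b :: l => gL l * (lam b * gz)

theorem gL_cons_apply (b : Bool) (l : List Bool) (y : Y) :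
    (gL (b :: l) : Equiv.Perm Y) y = (gL l : Equiv.Perm Y) ((lam b : Equiv.Perm Y) (zf 0 y)) := by
  rw [← coe_gz]
  rfl

theorem claimA (l : List Bool) : ∀ y : Y, (∀ j, 1 ≤ j → ((zf 0)^[j] y).1 ≠ 0) →
    ((gL l : Equiv.Perm Y) y).2 = y.2 := by
  induction l with
  | nil => intro y _; rfl
  | cons b l ih =>
    intro y hy
    rw [gL_cons_apply, coe_lam_ne b _ (show (zf 0 y).1 ≠ 0 from hy 1 le_rfl), ih]
    · exact zf_snd 0 y
    · intro j hj
      rw [← Function.iterate_succ_apply]
      exact hy (j + 1) (by omega)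

theorem iter_snd_irrel (j : ℕ) (y : Y) (r : ZMod 2) :
    ((zf 0)^[j] (y.1, r)).1 = ((zf 0)^[j] y).1 := by
  have hz : ∀ y y' : Y, y.1 = y'.1 → (zf 0 y).1 = (zf 0 y').1 := by
    intro y y' h
    unfold zf
    have hb : (bact 0 b0 y).1 = (bact 0 b0 y').1 := by
      rcases first_or_zero 0 y with h0 | ⟨k, hk, hk0, hk1⟩
      · rw [bact_of_zero _ h0, bact_of_zero _ (by rw [← h]; exact h0)]
        exact h
      · rw [bact_of_first _ hk hk0 hk1, bact_of_first (y := y') (k := k) _ hk
          (by rw [← h]; exact hk0) (by rw [← h]; exact hk1)]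
        rw [← h]
        split_ifs
        · unfold rot
          simp only
          rw [h]
        · exact h
    unfold rot
    simp only
    rw [hb]
  have : ∀ j, ∀ y y' : Y, y.1 = y'.1 → ((zf 0)^[j] y).1 = ((zf 0)^[j] y').1 := by
    intro j
    induction j with
    | zero => intro y y' h; exact h
    | succ j ih =>
      intro y y' h
      rw [Function.iterate_succ_apply, Function.iterate_succ_apply]
      exact ih _ _ (hz _ _ h)
  exact this j _ _ rfl

theorem claimB (l : List Bool) : ∀ (i : ℕ) (y : Y), ((zf 0)^[i + 1] y).1 = 0 →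
    ((gL l : Equiv.Perm Y) y).2 = y.2 + if l.getD i false then 1 else 0 := by
  induction l with
  | nil => intro i y _; simp [gL]
  | cons b l ih =>
    intro i y hy
    rw [gL_cons_apply]
    cases i with
    | zero =>
      have h0 : (zf 0 y).1 = 0 := hy
      rw [coe_lam_zero b _ h0, claimA, zf_snd]
      · simp
      · intro j hj
        exact no_return' j hj _ h0
    | succ i =>
      have h1 : (zf 0 y).1 ≠ 0 := by
        intro h2
        rw [Function.iterate_succ_apply] at hy
        exact no_return' (i + 1) (by omega) _ h2 hy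
      rw [coe_lam_ne b _ h1, ih i _ (by rw [← Function.iterate_succ_apply]; exact hy), zf_snd]
      simp

theorem gL_inj (l l' : List Bool) (hlen : l.length = l'.length) (h : gL l = gL l') : l = l' := by
  apply List.ext_getElem hlen
  intro i h1 h2
  set y : Y := (((gz ^ (i + 1) : Gp))⁻¹ : Gp).1 (0, 0) with hy
  have hy2 : (zf 0)^[i + 1] y = (0, 0) := by
    rw [← coe_gz_pow, hy]
    show ((gz ^ (i + 1) : Gp) : Equiv.Perm Y) ((((gz ^ (i + 1) : Gp)) : Equiv.Perm Y)⁻¹ (0, 0)) = _
    exact Equiv.apply_symm_apply ((gz ^ (i + 1) : Gp) : Equiv.Perm Y) (0, 0)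
  have e1 := claimB l i y (by rw [hy2])
  have e2 := claimB l' i y (by rw [hy2])
  rw [h, e2] at e1
  have e3 := add_left_cancel e1
  rw [List.getD_eq_getElem _ _ h1, List.getD_eq_getElem _ _ h2] at e3
  cases ha : l[i] <;> cases hb : l'[i] <;> simp_all

noncomputable def hL : List Bool → Gp
  | [] => 1
  | b :: l => gL l * lam b

theorem hL_inj (l l' : List Bool) (hlen : l.length = l'.length) (h : hL l = hL l') : l = l' := by
  cases l with
  | nil => exact (List.length_eq_zero_iff.1 hlen.symm).symm
  | cons b l =>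
    cases l' with
    | nil => simp at hlen
    | cons b' l' =>
      have hlen' : l.length = l'.length := by simpa using hlen
      have hv : ∀ (b : Bool) (l : List Bool),
          ((hL (b :: l) : Equiv.Perm Y) (0, 0)).2 = if b then 1 else 0 := by
        intro b l
        show ((gL l : Equiv.Perm Y) ((lam b : Equiv.Perm Y) (0, 0))).2 = _
        rw [coe_lam_zero b _ rfl, claimA]
        · simp
        · intro j hj
          exact no_return' j hj _ rfl
      have h1 := hv b l
      rw [h, hv b' l'] at h1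
      have hb : b = b' := by cases b <;> cases b' <;> simp_all
      subst hb
      have h2 : gL l = gL l' := mul_right_cancel h
      rw [gL_inj l l' hlen' h2]

theorem lam_list (b : Bool) : ∃ l : List Gp, (∀ x ∈ l, x ∈ A ∨ x⁻¹ ∈ A) ∧ l.length ≤ 1 ∧
    l.prod = lam b := by
  cases b with
  | true => exact ⟨[gd], by simp [mem_A], by simp, by simp [lam]⟩
  | false => exact ⟨[], by simp, by simp, by simp [lam]⟩

theorem gL_list (l : List Bool) : ∃ l' : List Gp, (∀ x ∈ l', x ∈ A ∨ x⁻¹ ∈ A) ∧
    l'.length ≤ 4 * l.length ∧ l'.prod = gL l := by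
  induction l with
  | nil => exact ⟨[], by simp, by simp, rfl⟩
  | cons b l ih =>
    obtain ⟨l1, h1, h2, h3⟩ := ih
    obtain ⟨l2, h4, h5, h6⟩ := lam_list b
    refine ⟨l1 ++ (l2 ++ [ga⁻¹, ge, gf⁻¹]), ?_, ?_, ?_⟩
    · intro x hx
      simp only [List.mem_append] at hx
      rcases hx with h | h | h
      · exact h1 x h
      · exact h4 x h
      · simp only [List.mem_cons, List.not_mem_nil, or_false] at h
        rcases h with rfl | rfl | rfl
        · right; rw [inv_inv, mem_A]; left; rfl
        · left; rw [mem_A]; right; left; rfl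
        · right; rw [inv_inv, mem_A]; right; right; left; rfl
    · simp only [List.length_append, List.length_cons, List.length_nil]
      omega
    · simp only [gL]
      rw [List.prod_append, List.prod_append, h3, h6]
      simp only [List.prod_cons, List.prod_nil, mul_one]
      rw [← mul_assoc ga⁻¹]
      rfl

theorem hL_ball (k : ℕ) (l : List Bool) (hl : l.length = k + 1) : hL l ∈ ball (4 * k + 1) := by
  cases l with
  | nil => simp at hl
  | cons b l =>
    obtain ⟨l1, h1, h2, h3⟩ := gL_list l
    obtain ⟨l2, h4, h5, h6⟩ := lam_list b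
    have hlen : l.length = k := by simpa using hl
    refine ⟨l1 ++ l2, ?_, ?_, ?_⟩
    · intro x hx
      rcases List.mem_append.1 hx with h | h
      · exact h1 x h
      · exact h4 x h
    · rw [List.length_append]; omega
    · rw [List.prod_append, h3, h6]; rfl

theorem ball_mono {a b : ℕ} (h : a ≤ b) : ball a ⊆ ball b := by
  rintro g ⟨l, h1, h2, h3⟩
  exact ⟨l, h1, h2.trans h, h3⟩

theorem ball_growth : ∃ c : ℝ, 1 < c ∧ ∀ n : ℕ, c ^ n ≤ ((ball n).ncard : ℝ) := by
  obtain ⟨c, hc1, hc4⟩ : ∃ c : ℝ, 1 < c ∧ c ^ 4 = 2 := by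
    refine ⟨(2 : ℝ) ^ (1 / 4 : ℝ), Real.one_lt_rpow (by norm_num) (by norm_num), ?_⟩
    rw [← Real.rpow_natCast, ← Real.rpow_mul (by norm_num)]
    norm_num
  refine ⟨c, hc1, fun n => ?_⟩
  rcases Nat.eq_zero_or_pos n with rfl | hn
  · have h1 : (1 : Gp) ∈ ball 0 := ⟨[], by simp, by simp, rfl⟩
    have h2 : 0 < (ball 0).ncard := (Set.ncard_pos (ball_finite 0)).2 ⟨1, h1⟩
    rw [pow_zero]
    exact_mod_cast h2
  · set k := (n - 1) / 4 with hk
    have hsub : ball (4 * k + 1) ⊆ ball n := ball_mono (by omega)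
    have h3 : Function.Injective (fun f : Fin (k + 1) → Bool => hL (List.ofFn f)) := by
      intro f f' h
      have := hL_inj _ _ (by simp) h
      exact List.ofFn_injective this
    have h4 : Set.range (fun f : Fin (k + 1) → Bool => hL (List.ofFn f)) ⊆ ball n := by
      rintro _ ⟨f, rfl⟩
      exact hsub (hL_ball k _ (by simp))
    have h5 := Set.ncard_le_ncard h4 (ball_finite _)
    rw [← Set.image_univ, Set.ncard_image_of_injective _ h3, Set.ncard_univ] at h5
    have h6 : (2 : ℕ) ^ (k + 1) ≤ (ball n).ncard := by simpa using h5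
    have h7 : n ≤ 4 * (k + 1) := by omega
    calc c ^ n ≤ c ^ (4 * (k + 1)) := pow_le_pow_right₀ hc1.le h7
      _ = (2 : ℝ) ^ (k + 1) := by rw [pow_mul, hc4]
      _ ≤ _ := by exact_mod_cast h6

end Pool.Agent.Helper67.SG
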